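import Pool.Agent.NTW.StmtsA

/-! NTW, row CHW: moves (helper38). -/

set_option autoImplicit false

open Matrix Filter Topology

namespace Pool.Agent.NTW.H38

open Pool.Agent.PFS Pool.Agent.PFJ Pool.Agent.NTS Pool.Agent.NTW

variable {n K : ℕ}

/-- invariant index sets -/
def Inv (τ : Fin K → Fin K) (S : Finset (Fin K)) : Prop := ∀ i ∈ S, τ i ∈ S

theorem sum_tau {τ : Fin K → Fin K} (ht : ∀ i, τ (τ i) = i) {S : Finset (Fin K)} (hS : Inv τ S)
    (f : Fin K → V n) : ∑ i ∈ S, f (τ i) = ∑ i ∈ S, f i :=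
  Finset.sum_nbij' τ τ hS hS (fun i _ => ht i) (fun i _ => ht i) (fun _ _ => rfl)

theorem sum_two {τ : Fin K → Fin K} (ht : ∀ i, τ (τ i) = i) {S : Finset (Fin K)} (hS : Inv τ S)
    (f : Fin K → V n) : ∑ i ∈ S, (f i + f (τ i)) = (2 : ℝ) • ∑ i ∈ S, f i := by
  rw [Finset.sum_add_distrib, sum_tau ht hS, two_smul]

theorem erase_inv {τ : Fin K → Fin K} (ht : ∀ i, τ (τ i) = i) {i : Fin K} (hi : τ i = i) :
    Inv τ (Finset.univ.erase i) := by
  intro j hj
  rw [Finset.mem_erase] at hj ⊢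
  refine ⟨fun h => hj.1 ?_, Finset.mem_univ _⟩
  rw [← ht j, h, hi]

theorem erase2_inv {τ : Fin K → Fin K} (ht : ∀ i, τ (τ i) = i) (i : Fin K) :
    Inv τ ((Finset.univ.erase i).erase (τ i)) := by
  intro j hj
  simp only [Finset.mem_erase, Finset.mem_univ, and_true] at hj ⊢
  refine ⟨fun h => hj.2 ?_, fun h => hj.1 ?_⟩
  · rw [← ht j, h, ht i]
  · rw [← ht j, h]

theorem erase2_inv' {τ : Fin K → Fin K} (ht : ∀ i, τ (τ i) = i) {k l : Fin K} (hk : τ k = k)
    (hl : τ l = l) : Inv τ ((Finset.univ.erase k).erase l) := by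
  intro j hj
  simp only [Finset.mem_erase, Finset.mem_univ, and_true] at hj ⊢
  refine ⟨fun h => hj.1 ?_, fun h => hj.2 ?_⟩
  · rw [← ht j, h, hl]
  · rw [← ht j, h, hk]

theorem Lf_fix (C : Set (V n)) {τ : Fin K → Fin K} (w : Fin K → V n) {i : Fin K} (h : τ i = i) :
    Lf C τ w i = Submodule.span ℝ {w i} := by
  unfold Lf
  rw [if_pos h]

theorem Lf_mov (C : Set (V n)) {τ : Fin K → Fin K} (w : Fin K → V n) {i : Fin K} (h : τ i ≠ i) :
    Lf C τ w i = Fs C (w i) (w (τ i)) := by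
  unfold Lf
  rw [if_neg h]

theorem unif {C : Set (V n)} (hC : PCone C) (x y : Fin K → V n) (hx : ∀ i, x i ∈ closure C)
    (h : ∀ i, ∃ M : ℝ, 0 < M ∧ M • x i - y i ∈ closure C) :
    ∃ M : ℝ, 0 < M ∧ ∀ i, M • x i - y i ∈ closure C := by
  choose M hM hM2 using h
  refine ⟨1 + ∑ i, M i, by
    have : 0 ≤ ∑ i, M i := Finset.sum_nonneg fun i _ => (hM i).le
    linarith, fun i => ?_⟩
  have h1 : M i ≤ ∑ i, M i := Finset.single_le_sum (fun j _ => (hM j).le) (Finset.mem_univ i)
  have e : (1 + ∑ i, M i) • x i - y i = (1 + ∑ i, M i - M i) • x i + (M i • x i - y i) := by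
    module
  rw [e]
  exact hC.cl_add (hC.cl_smul (hx i) (by linarith)) (hM2 i)

theorem sum_le {C : Set (V n)} (hC : PCone C) {τ : Fin K → Fin K} (ht : ∀ i, τ (τ i) = i)
    (x y : Fin K → V n) {M : ℝ} (h : ∀ i, M • (x i + x (τ i)) - (y i + y (τ i)) ∈ closure C)
    {S : Finset (Fin K)} (hS : Inv τ S) : M • (∑ i ∈ S, x i) - ∑ i ∈ S, y i ∈ closure C := by
  have h1 : ∑ i ∈ S, (M • (x i + x (τ i)) - (y i + y (τ i))) ∈ closure C :=
    hC.cl_sum fun i _ => h i
  rw [Finset.sum_sub_distrib, ← Finset.smul_sum, sum_two ht hS, sum_two ht hS] at h1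
  have e : M • (2 : ℝ) • (∑ i ∈ S, x i) - (2 : ℝ) • (∑ i ∈ S, y i) =
      (2 : ℝ) • (M • (∑ i ∈ S, x i) - ∑ i ∈ S, y i) := by module
  rw [e] at h1
  exact (hC.cl_smul_iff two_pos).1 h1

theorem omit_not {C : Set (V n)} {w : Fin K → V n} (hw : PES C w) (i : Fin K)
    {S : Finset (Fin K)} (hi : i ∉ S) : ∑ j ∈ S, w j ∉ C := by
  classical
  have h := hw.bd (fun j => if j ∈ S then (1 : ℝ) else 0) (fun j => by split_ifs <;> norm_num)
    ⟨i, by simp [hi]⟩
  have e : ∑ j, (if j ∈ S then (1 : ℝ) else 0) • w j = ∑ j ∈ S, w j := by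
    simp [Finset.sum_ite_mem]
  rwa [e] at h

theorem pos_coef {C : Set (V n)} (hC : PCone C) {x y : V n} (hx : x ∈ closure C)
    (hy : y ∈ closure C) (hy0 : y ≠ 0) {r : ℝ} (h : y = r • x) : 0 < r := by
  by_contra hr
  push Not at hr
  refine hy0 (hC.salient y hy ?_)
  have : -y = (-r) • x := by rw [h]; module
  rw [this]
  exact hC.cl_smul hx (by linarith)

theorem chw (hFcs : FcsStmt) (hPbf : PbfStmt) (hBxt : BxtStmt) (hTbx : TbxStmt)
    (hDcp : DcpStmt) : ChwStmt := by
  intro n C Γ K c τ hD w hw w' hw' hw2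
  have hcc : CC C Γ := hD.toCC
  have hC : PCone C := hD.toPCone
  have ht : ∀ i, τ (τ i) = i := hD.inv
  have hul := hcc.hul
  obtain ⟨hpes, hlam⟩ := hw.pes
  have hwc : ∀ i, w i ∈ closure C := fun i => hpes.cl i
  have hPB := (hTbx n C Γ K c τ hD w hw).1
  obtain ⟨d1, d2, d3, -, -, -, -⟩ := hDcp n C Γ K c τ hD w hw
  have hmemτ : ∀ i, w' (τ i) ∈ Lf C τ w i := by
    intro i
    have := (hw' (τ i)).1
    rwa [d2] at this
  have hfix : ∀ i, τ i = i → ∃ r : ℝ, 0 < r ∧ w' i = r • w i := by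
    intro i hi
    have h1 := (hw' i).1
    rw [Lf_fix C w hi, Submodule.mem_span_singleton] at h1
    obtain ⟨r, hr⟩ := h1
    exact ⟨r, pos_coef hC (hwc i) (hw' i).2.1 (hw' i).2.2 hr.symm, hr.symm⟩
  have hdim3 : ∀ i, τ i ≠ i → 3 ≤ Module.finrank ℝ (Fs C (w i) (w (τ i))) := by
    intro i hi
    rw [hD.dim w hw i (τ i) (Ne.symm hi)]
    exact hD.pair i hi
  -- units
  have hU : ∀ i, Unt C (Lf C τ w i) (w' i + w' (τ i)) := by
    intro i
    by_cases hi : τ i = i
    · obtain ⟨r, hr, hr2⟩ := hfix i hi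
      have h1 := (Pool.Agent.PFJ.H76.unf n C hC _ _ (d3 i)).1 r hr
      have e : r • (w i + w (τ i)) = w' i + w' (τ i) := by
        rw [hi, hr2]; module
      rwa [e] at h1
    · have h1 := hBxt n C Γ hcc K hD.three hD.maxc w hw.pes i (τ i) (Ne.symm hi) _
        (hPB i (τ i) (Ne.symm hi)) (hdim3 i hi) (w' i) (by
          have := (hw' i).1
          rwa [Lf_mov C w hi] at this) (w' (τ i)) (by
          have := hmemτ i
          rwa [Lf_mov C w hi] at this) (hw' i).2.1 (hw' (τ i)).2.1 (hw2 i hi).1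
      rwa [← Lf_mov C w hi] at h1
  have hucl : ∀ i, w' i + w' (τ i) ∈ closure C := fun i => (hU i).2.1
  have hvcl : ∀ i, w i + w (τ i) ∈ closure C := fun i => (d3 i).2.1
  obtain ⟨M, hM0, hM⟩ := unif hC (fun i => w i + w (τ i)) (fun i => w' i + w' (τ i)) hvcl
    fun i => (d3 i).2.2 _ (hU i).1
  obtain ⟨N, hN0, hN⟩ := unif hC (fun i => w' i + w' (τ i)) (fun i => w i + w (τ i)) hucl
    fun i => (hU i).2.2 _ (d3 i).1
  have star : ∀ {S : Finset (Fin K)}, Inv τ S → M • (∑ i ∈ S, w i) - ∑ i ∈ S, w' i ∈ closure C :=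
    fun {S} hS => sum_le hC ht w w' hM hS
  -- the simplex
  have hsum : ∑ i, w' i ∈ C := by
    have h1 : N • (∑ i, w' i) - ∑ i, w i ∈ closure C :=
      sum_le hC ht w' w hN (S := Finset.univ) (fun i _ => Finset.mem_univ _)
    have h2 := hC.mem_of_le (hpes.sum_mem) h1
    exact (hC.smul_iff hN0).1 h2
  have hbox : ∀ i j, i ≠ j → ∀ v ∈ Fs C (w i) (w j), ∀ A : ℝ, v + A • rst w i j ∈ closure C →
      v ∈ closure C := by
    intro i j hij v hv A hA
    have h1 := ((hPbf n C hC K w hpes i j hij).1 _ (hPB i j hij)).2.2.1 v hv (fun _ => A) (by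
      unfold rst at hA
      rwa [Finset.smul_sum] at hA)
    exact h1.1
  have homit : ∀ i, ∑ j ∈ Finset.univ.erase i, w' j ∉ C := by
    intro i hmem
    by_cases hi : τ i = i
    · have h1 := star (erase_inv ht hi)
      have h2 := hC.mem_of_le hmem h1
      exact omit_not hpes i (S := Finset.univ.erase i) (by simp) ((hC.smul_iff hM0).1 h2)
    · have hj : τ i ∈ Finset.univ.erase i := by simp [hi]
      rw [← Finset.add_sum_erase _ _ hj] at hmem
      have h1 := star (erase2_inv ht i)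
      have h2 : w' (τ i) + M • rst w i (τ i) ∈ C := by
        refine hC.mem_of_le hmem ?_
        have e : w' (τ i) + M • rst w i (τ i) - (w' (τ i) +
            ∑ j ∈ (Finset.univ.erase i).erase (τ i), w' j) =
            M • (∑ j ∈ (Finset.univ.erase i).erase (τ i), w j) -
              ∑ j ∈ (Finset.univ.erase i).erase (τ i), w' j := by
          unfold rst; abel
        rw [e]
        exact h1
      refine (hw2 (τ i) (by rw [ht]; exact Ne.symm hi)).2 ?_
      rw [d2]
      refine ⟨hmemτ i, (hw' (τ i)).2.1, fun z hz => ?_⟩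
      obtain ⟨M', hM', hM2⟩ := hC.absorb h2 z
      refine ⟨M', hM', ?_⟩
      have hzF : M' • w' (τ i) - z ∈ Fs C (w i) (w (τ i)) := by
        rw [← Lf_mov C w hi]
        exact Submodule.sub_mem _ (Submodule.smul_mem _ _ (hmemτ i)) hz
      refine hbox i (τ i) (Ne.symm hi) _ hzF (M' * M) ?_
      have e : M' • w' (τ i) - z + (M' * M) • rst w i (τ i) =
          M' • (w' (τ i) + M • rst w i (τ i)) - z := by module
      rw [e]
      exact subset_closure hM2
  have hpes' : PES C w' := Pool.Agent.PFS.H60.crt n C hC (Fin K) w' (fun i => (hw' i).2.1) hsum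
    homit
  have hlam' : ∀ i, w' i ∈ LamC C Γ := by
    intro i
    by_cases hi : τ i = i
    · obtain ⟨r, hr, hr2⟩ := hfix i hi
      rw [hr2]
      exact hul.lamSmul _ (hlam i) r hr
    · have h1 : w i + w (τ i) ∈ Hull C Γ := hul.add _ (hul.lamHull _ (hlam i)) _
        (hul.lamHull _ (hlam (τ i)))
      have h2 : w i + w (τ i) ∉ C := by
        obtain ⟨l, hl⟩ : ∃ l : Fin K, l ∉ ({i, τ i} : Finset (Fin K)) := by
          by_contra hcon
          push Not at hcon
          have h3 : Finset.univ ⊆ ({i, τ i} : Finset (Fin K)) := fun l _ => hcon l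
          have h4 := Finset.card_le_card h3
          rw [Finset.card_univ, Fintype.card_fin] at h4
          have h5 : ({i, τ i} : Finset (Fin K)).card ≤ 2 := Finset.card_le_two
          have := hD.three
          omega
        have h3 := omit_not hpes l hl
        rwa [Finset.sum_pair (Ne.symm hi)] at h3
      have h3 : w i + w (τ i) ≠ 0 := by
        intro h0
        have h4 : -(w i) = w (τ i) := by
          rw [neg_eq_iff_add_eq_zero]; exact h0
        exact hul.lamNe _ (hlam i) (hC.salient _ (hwc i) (by rw [h4]; exact hwc (τ i)))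
      have h4 : w i + w (τ i) ∈ LamC C Γ := Pool.Agent.PFS.H37.cloF n C Γ hcc (fun _ => w i + w (τ i))
        _ (fun _ => h1) tendsto_const_nhds h2 h3
      have h5 := hul.lamSmul _ h4 M hM0
      refine Pool.Agent.PFS.H37.flmF n C Γ hcc _ h5 (w' i) (hw' i).2.1 (hw' i).2.2 ?_
      have e : M • (w i + w (τ i)) - w' i =
          (M • (w i + w (τ i)) - (w' i + w' (τ i))) + w' (τ i) := by abel
      rw [e]
      exact hC.cl_add (hM i) (hw' (τ i)).2.1
  have hLf : ∀ i, Lf C τ w' i = Lf C τ w i := by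
    intro i
    by_cases hi : τ i = i
    · obtain ⟨r, hr, hr2⟩ := hfix i hi
      rw [Lf_fix C w hi, Lf_fix C w' hi, hr2]
      exact Submodule.span_singleton_smul_eq (IsUnit.mk0 r hr.ne') _
    · have h1 := hU i
      rw [Lf_mov C w hi] at h1 ⊢
      rw [Lf_mov C w' hi]
      exact ((hFcs n C hC (w i + w (τ i)) (hvcl i)).2.2.2.2 _ h1)
  have hbox2 : ∀ k l, k ≠ l → Inv τ ((Finset.univ.erase k).erase l) →
      ∀ v ∈ Fs C (w k) (w l), v + rst w' k l ∈ closure C → v ∈ closure C := by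
    intro k l hkl hinv v hv hv2
    refine hbox k l hkl v hv M ?_
    have e : v + M • rst w k l = (v + rst w' k l) +
        (M • (∑ i ∈ (Finset.univ.erase k).erase l, w i) -
          ∑ i ∈ (Finset.univ.erase k).erase l, w' i) := by
      unfold rst; abel
    rw [e]
    exact hC.cl_add hv2 (star hinv)
  refine ⟨⟨⟨hpes', hlam'⟩, fun k l hkl => ?_⟩, hLf, ?_⟩
  · -- pair boxes
    have small : c k l ≤ 2 → ∃ L : Submodule ℝ (V n), PB C w' k l L ∧
        c k l ≤ Module.finrank ℝ L := by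
      intro h2
      obtain ⟨-, h3, h4⟩ := hPbf n C hC K w' hpes' k l hkl
      exact ⟨_, h3, by rw [h4]; exact h2⟩
    by_cases hk : τ k = k
    · by_cases hl : τ l = l
      · obtain ⟨r, hr, hr2⟩ := hfix k hk
        obtain ⟨r', hr', hr2'⟩ := hfix l hl
        refine ⟨Fs C (w k) (w l), ⟨?_, ?_, hbox2 k l hkl (erase2_inv' ht hk hl)⟩,
          (hD.dim w hw k l hkl).ge⟩
        · rw [hr2]; exact Submodule.smul_mem _ _ (hPB k l hkl).left
        · rw [hr2']; exact Submodule.smul_mem _ _ (hPB k l hkl).right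
      · refine small ?_
        rw [hD.sym]
        exact hD.leaf l hl k hkl (fun h => hkl (by rw [← hk, h, ht]))
    · by_cases hl : l = τ k
      · subst hl
        refine ⟨Fs C (w k) (w (τ k)), ⟨?_, ?_, hbox2 k (τ k) hkl (erase2_inv ht k)⟩,
          (hD.dim w hw k (τ k) hkl).ge⟩
        · have := (hw' k).1
          rwa [Lf_mov C w hk] at this
        · have := hmemτ k
          rwa [Lf_mov C w hk] at this
      · exact small (hD.leaf k hk l (Ne.symm hkl) hl)
  · unfold Ws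
    exact iSup_congr hLf

end Pool.Agent.NTW.H38
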